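import Mathlib

set_option autoImplicit false

namespace Pool.Agent.Results.MP_c0d803_al.Strict

open Filter

/-- One derivation step of an indexed grammar in the form of Aho: plain rules `R₁`,
index pushing rules `R₂`, index popping rules `R₃`. -/
def Step {T N Fl : Type} (R₁ : Set (N × List (T ⊕ N))) (R₂ : Set (N × N × Fl))
    (R₃ : Set (N × Fl × List (T ⊕ N))) (u v : List (T ⊕ (N × List Fl))) : Prop :=
  ∃ (p q : List (T ⊕ (N × List Fl))) (A : N) (l : List Fl),
    (∃ α : List (T ⊕ N), (A, α) ∈ R₁ ∧ u = p ++ Sum.inr (A, l) :: q ∧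
      v = p ++ α.map (Sum.map id (fun B => (B, l))) ++ q) ∨
    (∃ (B : N) (f : Fl), (A, B, f) ∈ R₂ ∧ u = p ++ Sum.inr (A, l) :: q ∧
      v = p ++ Sum.inr (B, f :: l) :: q) ∨
    (∃ (f : Fl) (α : List (T ⊕ N)), (A, f, α) ∈ R₃ ∧ u = p ++ Sum.inr (A, f :: l) :: q ∧
      v = p ++ α.map (Sum.map id (fun B => (B, l))) ++ q)

/-- `L` is generated by an indexed grammar with finitely many rules. -/
def IsIndexed {T : Type} (L : Language T) : Prop :=
  ∃ (N Fl : Type) (S : N) (R₁ : Set (N × List (T ⊕ N))) (R₂ : Set (N × N × Fl))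
    (R₃ : Set (N × Fl × List (T ⊕ N))), R₁.Finite ∧ R₂.Finite ∧ R₃.Finite ∧
    ∀ w : List T, w ∈ L ↔ Relation.ReflTransGen (Step R₁ R₂ R₃) [Sum.inr (S, [])] (w.map Sum.inl)

/-- the words of `L` read as elements of the free group -/
def rels {T : Type} (L : Language T) : Set (FreeGroup T) :=
  {g | ∃ w ∈ L, g = (w.map FreeGroup.of).prod}

theorem cf_fin {T : Type} (γ : ContextFreeGrammar T) (K : Subgroup (FreeGroup T)) [K.Normal]
    (hK : rels γ.language ⊆ K) : ∃ R : Set (FreeGroup T), R.Finite ∧ R ⊆ K ∧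
      ∀ (H : Type) [Group H] (χ : FreeGroup T →* H), (∀ r ∈ R, χ r = 1) →
        ∀ r ∈ rels γ.language, χ r = 1 := by
  classical
  let Pr : γ.NT → Prop := fun A => ∃ w : List T, γ.Derives [.nonterminal A] (w.map .terminal)
  let wd : Symbol T γ.NT → List T := fun s => match s with
    | .terminal t => [t]
    | .nonterminal A => if h : Pr A then h.choose else []
  let ev : List T → FreeGroup T := fun w => (w.map FreeGroup.of).prod
  have ev_app : ∀ u v, ev (u ++ v) = ev u * ev v := fun u v => by simp [ev]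
  have hd : ∀ x : List (Symbol T γ.NT), (∀ A, .nonterminal A ∈ x → Pr A) →
      γ.Derives x ((x.flatMap wd).map .terminal) := by
    intro x hx
    induction x with
    | nil => exact .refl _
    | cons s x ih =>
      have h1 : γ.Derives [s] ((wd s).map .terminal) := by
        cases s with
        | terminal t => exact .refl _
        | nonterminal A =>
          have hA := hx A (by simp)
          simpa [wd, hA] using hA.choose_spec
      rw [List.flatMap_cons, List.map_append]
      exact (h1.append_right x).trans ((ih fun A h => hx A (by simp [h])).append_left _)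
  have hp : ∀ (w : List T) (x : List (Symbol T γ.NT)), γ.Derives x (w.map .terminal) →
      ∀ A, .nonterminal A ∈ x → Pr A := by
    intro w x hx
    induction hx using Relation.ReflTransGen.head_induction_on with
    | refl => simp
    | head h _ ih =>
      obtain ⟨r, hr, h⟩ := h
      obtain ⟨p, q, rfl, rfl⟩ := h.exists_parts
      intro A hA
      simp only [List.mem_append, List.mem_singleton] at hA ih
      rcases hA with (hA | hA) | hA
      · exact ih A (.inl (.inl hA))
      · obtain rfl : A = r.input := by simpa using hA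
        exact ⟨_, ContextFreeGrammar.Produces.trans_derives ⟨r, hr, .input_output⟩
          (hd _ fun B hB => ih B (.inl (.inr hB)))⟩
      · exact ih A (.inr hA)
  let c : ContextFreeRule T γ.NT → FreeGroup T := fun r =>
    (ev (wd (.nonterminal r.input)))⁻¹ * ev (r.output.flatMap wd)
  refine ⟨(insert (ev (wd (.nonterminal γ.initial))) (c '' γ.rules)) ∩ K,
    ((γ.rules.finite_toSet.image c).insert _).inter_of_left _, Set.inter_subset_right, ?_⟩
  rintro H _ χ hχ _ ⟨w, hw, rfl⟩
  have hin : ∀ x, γ.Derives [.nonterminal γ.initial] x → γ.Derives x (w.map .terminal) →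
      ev (x.flatMap wd) ∈ K := fun x h1 h2 =>
    hK ⟨_, (γ.mem_language_iff _).2 (h1.trans (hd x (hp w x h2))), rfl⟩
  rw [γ.mem_language_iff] at hw
  have key : ∀ x, γ.Derives x (w.map .terminal) → γ.Derives [.nonterminal γ.initial] x →
      χ (ev (x.flatMap wd)) = χ (ev w) := by
    intro x hx
    induction hx using Relation.ReflTransGen.head_induction_on with
    | refl => intro _; congr 2; simp [List.flatMap_map, wd]
    | head h h' ih =>
      intro h0
      have k1 := hin _ h0 (h.trans_derives h')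
      have k2 := hin _ (h0.trans_produces h) h'
      rw [← ih (h0.trans_produces h)]
      obtain ⟨r, hr, h⟩ := h
      obtain ⟨p, q, rfl, rfl⟩ := h.exists_parts
      simp only [List.flatMap_append, ev_app, List.flatMap_singleton] at k1 k2 ⊢
      have k3 : c r ∈ K := by
        have := ‹K.Normal›.conj_mem _ (K.mul_mem (K.inv_mem k1) k2) (ev (q.flatMap wd))
        convert this using 1
        simp only [c]; group
      have := hχ _ ⟨.inr ⟨r, hr, rfl⟩, k3⟩
      simp only [c, map_mul, map_inv, inv_mul_eq_one] at this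
      simp only [map_mul, this]
  rw [← key _ hw (.refl _)]
  simp only [List.flatMap_singleton]
  exact hχ _ ⟨.inl rfl, by simpa using hin _ (.refl _) hw⟩

def R1 : Set (Fin 4 × List (Fin 3 ⊕ Fin 4)) :=
  {(1, [.inl 0, .inr 2, .inl 0, .inr 3, .inl 0, .inr 2, .inl 0, .inr 3])}
def R2 : Set (Fin 4 × Fin 4 × Bool) := {(0, 1, false), (1, 1, true)}
def R3 : Set (Fin 4 × Bool × List (Fin 3 ⊕ Fin 4)) :=
  {(2, true, [.inl 1, .inr 2]), (2, false, []), (3, true, [.inl 2, .inr 3]), (3, false, [])}

def L0 : Language (Fin 3) :=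
  {w | Relation.ReflTransGen (Step R1 R2 R3) [Sum.inr (0, [])] (w.map Sum.inl)}

def t : Equiv.Perm ℤ := Equiv.addRight 1

def gen (M : ℕ) : Fin 3 → Equiv.Perm ℤ := ![Equiv.swap 0 M, t, t⁻¹]

def cnt : List Bool → ℕ
  | true :: l => cnt l + 1
  | _ => 0

def val (M : ℕ) : Fin 3 ⊕ (Fin 4 × List Bool) → Equiv.Perm ℤ
  | .inl a => gen M a
  | .inr (A, l) => ![1, 1, t ^ cnt l, t⁻¹ ^ cnt l] A

theorem conj (M n : ℕ) : t ^ n * (Equiv.swap (0 : ℤ) M * t⁻¹ ^ n) = Equiv.swap (n : ℤ) (M + n) := by
  have h : ∀ x : ℤ, (t ^ n) x = x + n := fun x => by simp [t]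
  rw [← mul_assoc, inv_pow, ← Equiv.swap_apply_apply, h, h, zero_add]

theorem step_val {u v : List (Fin 3 ⊕ (Fin 4 × List Bool))} (h : Step R1 R2 R3 u v) :
    ∀ᶠ M in atTop, (v.map (val M)).prod = (u.map (val M)).prod := by
  obtain ⟨p, q, A, l, ⟨α, h, rfl, rfl⟩ | ⟨B, f, h, rfl, rfl⟩ | ⟨f, α, h, rfl, rfl⟩⟩ := h
  · obtain ⟨rfl, rfl⟩ := Prod.mk.inj h
    filter_upwards [eventually_gt_atTop (cnt l)] with M hM
    have : Equiv.swap (0 : ℤ) M * (Equiv.swap (cnt l : ℤ) (M + cnt l) * (Equiv.swap (0 : ℤ) M *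
        Equiv.swap (cnt l : ℤ) (M + cnt l))) = 1 := by
      ext x
      simp only [Equiv.Perm.mul_apply, Equiv.swap_apply_def, Equiv.Perm.one_apply]
      split_ifs <;> omega
    rw [← conj] at this
    replace this := congrArg (· * (q.map (val M)).prod) this
    simp only [mul_assoc, one_mul] at this
    simp [val, gen, -inv_pow, this]
  · refine .of_forall fun M => ?_
    simp only [R2, Set.mem_insert_iff, Set.mem_singleton_iff, Prod.mk.injEq] at h
    rcases h with ⟨rfl, rfl, rfl⟩ | ⟨rfl, rfl, rfl⟩ <;> simp [val]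
  · refine .of_forall fun M => ?_
    simp only [R3, Set.mem_insert_iff, Set.mem_singleton_iff, Prod.mk.injEq] at h
    rcases h with ⟨rfl, rfl, rfl⟩ | ⟨rfl, rfl, rfl⟩ | ⟨rfl, rfl, rfl⟩ | ⟨rfl, rfl, rfl⟩ <;>
      simp [val, gen, cnt, pow_succ', mul_assoc, -inv_pow]

theorem ev_one {r : FreeGroup (Fin 3)} (h : r ∈ rels L0) :
    ∀ᶠ M in atTop, FreeGroup.lift (gen M) r = 1 := by
  obtain ⟨w, hw, rfl⟩ := h
  have : ∀ v, Relation.ReflTransGen (Step R1 R2 R3) [Sum.inr (0, [])] v →
      ∀ᶠ M in atTop, (v.map (val M)).prod = 1 := by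
    intro v hv
    induction hv with
    | refl => simp [val]
    | tail _ h ih => filter_upwards [ih, step_val h] with M h1 h2 using h2.trans h1
  filter_upwards [this _ hw] with M hM
  rw [← hM, map_list_prod, List.map_map, List.map_map]
  congr 1

theorem pop (A : Fin 4) (a : Fin 3) (h1 : (A, true, [.inl a, .inr A]) ∈ R3) (h2 : (A, false, []) ∈ R3)
    (n : ℕ) (p q : List (Fin 3 ⊕ (Fin 4 × List Bool))) : Relation.ReflTransGen (Step R1 R2 R3)
      (p ++ .inr (A, List.replicate n true ++ [false]) :: q)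
      (p ++ (List.replicate n (.inl a) ++ q)) := by
  induction n generalizing p with
  | zero => exact .single ⟨p, q, A, [], .inr (.inr ⟨false, [], h2, by simp, by simp⟩)⟩
  | succ n ih =>
    refine .head ⟨p, q, A, List.replicate n true ++ [false],
      .inr (.inr ⟨true, _, h1, by simp [List.replicate_succ], rfl⟩)⟩ ?_
    have := ih (p ++ [.inl a])
    simp only [List.append_assoc] at this
    simpa [List.replicate_succ] using this

theorem mem_L0 (n : ℕ) : (0 :: (List.replicate n 1 ++ 0 :: (List.replicate n 2 ++ 0 ::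
    (List.replicate n 1 ++ 0 :: List.replicate n 2)))) ∈ L0 := by
  have h1 : ∀ n, Relation.ReflTransGen (Step R1 R2 R3) [Sum.inr (0, [])]
      [Sum.inr (1, List.replicate n true ++ [false])] := by
    intro n
    induction n with
    | zero => exact .single ⟨[], [], 0, [], .inr (.inl ⟨1, false, by simp [R2], rfl, rfl⟩)⟩
    | succ n ih =>
      exact ih.tail ⟨[], [], 1, _, .inr (.inl ⟨1, true, by simp [R2], rfl, by
        simp [List.replicate_succ]⟩)⟩
  refine ((h1 n).tail ⟨[], [], 1, _, .inl ⟨_, rfl, rfl, rfl⟩⟩).trans ?_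
  have X := pop 2 1 (by simp [R3]) (by simp [R3]) n
  have Y := pop 3 2 (by simp [R3]) (by simp [R3]) n
  refine (X [.inl 0] _).trans ?_
  have := Y ([.inl 0] ++ List.replicate n (.inl 1) ++ [.inl 0]) [.inl 0,
    .inr (2, List.replicate n true ++ [false]), .inl 0, .inr (3, List.replicate n true ++ [false])]
  refine .trans (by simpa using this) ?_
  have := X ([.inl 0] ++ List.replicate n (.inl 1) ++ [.inl 0] ++ List.replicate n (.inl 2) ++
    [.inl 0]) [.inl 0, .inr (3, List.replicate n true ++ [false])]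
  refine .trans (by simpa using this) ?_
  have := Y ([.inl 0] ++ List.replicate n (.inl 1) ++ [.inl 0] ++ List.replicate n (.inl 2) ++
    [.inl 0] ++ List.replicate n (.inl 1) ++ [.inl 0]) []
  simp only [List.append_assoc] at this
  simpa using this

theorem ev_ne (M : ℕ) (hM : 0 < M) : ∃ r ∈ rels L0, FreeGroup.lift (gen M) r ≠ 1 := by
  refine ⟨_, ⟨_, mem_L0 M, rfl⟩, fun h => ?_⟩
  have h' : Equiv.swap (0 : ℤ) M * (t ^ M * (Equiv.swap (0 : ℤ) M * t⁻¹ ^ M) *
      (Equiv.swap (0 : ℤ) M * (t ^ M * (Equiv.swap (0 : ℤ) M * t⁻¹ ^ M)))) = 1 := by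
    simpa [gen, mul_assoc, -inv_pow] using h
  rw [conj] at h'
  have := DFunLike.congr_fun h' 0
  simp only [Equiv.Perm.mul_apply, Equiv.swap_apply_def, Equiv.Perm.one_apply] at this
  split_ifs at this <;> omega

/-- Some group presented by an indexed language of relators has no presentation by a
context-free language of relators. -/
theorem result : ∃ (Δ : Type) (_ : Finite Δ) (L : Language Δ), IsIndexed L ∧
    ∀ (Δ' : Type) (_ : Finite Δ') (L' : Language Δ'), L'.IsContextFree →
      IsEmpty (PresentedGroup (rels L) ≃* PresentedGroup (rels L')) := by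
  refine ⟨Fin 3, inferInstance, L0, ⟨_, _, 0, R1, R2, R3, by simp [R1], by simp [R2], by simp [R3],
    fun _ => Iff.rfl⟩, ?_⟩
  rintro Δ' _ _ ⟨γ, rfl⟩
  refine ⟨fun φ => ?_⟩
  let π := PresentedGroup.mk (rels L0)
  let π' := PresentedGroup.mk (rels γ.language)
  have hs : Function.Surjective π := PresentedGroup.mk_surjective _
  have hs' : Function.Surjective π' := PresentedGroup.mk_surjective _
  choose a ha using fun d : Δ' => hs (φ.symm (π' (.of d)))
  have hα : ∀ g, π (FreeGroup.lift a g) = φ.symm (π' g) := fun g =>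
    DFunLike.congr_fun (show π.comp (FreeGroup.lift a) = φ.symm.toMonoidHom.comp π' from
      FreeGroup.ext_hom _ _ fun d => by simpa using ha d) g
  let K : Subgroup (FreeGroup (Fin 3)) :=
    { carrier := {g | ∀ᶠ M in atTop, FreeGroup.lift (gen M) g = 1}
      one_mem' := .of_forall fun _ => map_one _
      mul_mem' := fun {x y} h1 h2 => by
        filter_upwards [h1, h2] with M h1 h2 using by rw [map_mul, h1, h2, one_mul]
      inv_mem' := fun {x} h1 => by
        filter_upwards [h1] with M h1 using by rw [map_inv, h1, inv_one] }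
  have : K.Normal := ⟨fun n hn g => by
    filter_upwards [hn] with M h using by simp only [map_mul, h, map_inv, mul_one, mul_inv_cancel]⟩
  have hK : ∀ g, π g = 1 → g ∈ K := fun g hg =>
    Subgroup.normalClosure_le_normal (N := K) (fun r hr => ev_one hr)
      ((QuotientGroup.eq_one_iff g).1 hg)
  obtain ⟨R, hR, hRK, h⟩ := cf_fin γ (K.comap (FreeGroup.lift a)) fun r hr =>
    hK _ (by rw [hα, show π' r = 1 from PresentedGroup.one_of_mem hr, map_one])
  choose b hb using fun x : Fin 3 => hs' (φ (π (.of x)))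
  have e1 : ∀ᶠ M in atTop, ∀ r ∈ R, FreeGroup.lift (gen M) (FreeGroup.lift a r) = 1 :=
    (eventually_all_finite hR).2 fun r hr => hRK hr
  have e2 : ∀ᶠ M in atTop, ∀ x, FreeGroup.lift (gen M) ((FreeGroup.lift a (b x))⁻¹ * .of x) = 1 :=
    eventually_all.2 fun x => hK _ (by rw [map_mul, map_inv, hα, hb]; simp)
  obtain ⟨M, h1, h2, h3⟩ := (e1.and (e2.and (eventually_gt_atTop 0))).exists
  obtain ⟨r, hr, hne⟩ := ev_ne M h3
  let χ := (FreeGroup.lift (gen M)).comp (FreeGroup.lift a)
  let θ : PresentedGroup (rels γ.language) →* Equiv.Perm ℤ :=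
    QuotientGroup.lift _ χ (Subgroup.normalClosure_le_normal (N := χ.ker) (h _ χ h1))
  have : FreeGroup.lift (gen M) = (θ.comp φ.toMonoidHom).comp π :=
    FreeGroup.ext_hom _ _ fun x => by
      have := h2 x
      rw [map_mul, map_inv, inv_mul_eq_one] at this
      rw [← this]
      show _ = θ (φ (π (.of x)))
      rw [← hb]; rfl
  apply hne
  rw [this]
  show θ (φ (π r)) = 1
  rw [show π r = 1 from PresentedGroup.one_of_mem hr, map_one, map_one]

end Pool.Agent.Results.MP_c0d803_al.Strict
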